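import Pool.Agent.V11113.RieszOrder

/-!
# Bounded orbit representations of Gabor frames, indexing by the naturals and by the integers

A Gabor frame has, in some ordering by the natural numbers or by the integers, a bounded
representation as an operator orbit exactly if it is a Riesz basis. So an overcomplete Gabor frame
with a bounded representation for one index set would have one for the other index set as well.
-/

set_option autoImplicit false

open MeasureTheory

namespace Pool.Agent.Results.MP_fbf723_an.BothIndexings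

/-- The Hilbert space of square integrable complex functions on the real line. -/
noncomputable abbrev L2 := Lp ℂ 2 (volume : Measure ℝ)

/-- The family `f` is the Gabor system of `g` with translation step `a` and modulation step `b`:
`f (m, n)` is the function `x ↦ exp (2 π i m b x) g (x - n a)`. -/
def IsGaborSystem (a b : ℝ) (g : L2) (f : ℤ × ℤ → L2) : Prop :=
  ∀ m n : ℤ, (f (m, n) : ℝ → ℂ) =ᵐ[volume]
    fun x => Complex.exp (2 * Real.pi * Complex.I * (m * b * x)) * (g : ℝ → ℂ) (x - n * a)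

/-- Frame: there are bounds `A, B > 0` with `A ‖x‖² ≤ ∑ |⟨f i, x⟩|² ≤ B ‖x‖²` for all `x`
(and the sum converges). -/
def IsFrame {H : Type*} [NormedAddCommGroup H] [InnerProductSpace ℂ H] {ι : Type*}
    (f : ι → H) : Prop :=
  ∃ A B : ℝ, 0 < A ∧ 0 < B ∧ ∀ x : H, Summable (fun i => ‖inner ℂ (f i) x‖ ^ 2) ∧
    A * ‖x‖ ^ 2 ≤ ∑' i, ‖inner ℂ (f i) x‖ ^ 2 ∧ ∑' i, ‖inner ℂ (f i) x‖ ^ 2 ≤ B * ‖x‖ ^ 2

/-- Riesz basis: the span is dense and there are `A, B > 0` with
`A ∑ |c i|² ≤ ‖∑ c i • f i‖² ≤ B ∑ |c i|²` for all finite families of scalars. -/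
def IsRieszBasis {H : Type*} [NormedAddCommGroup H] [InnerProductSpace ℂ H] {ι : Type*}
    (f : ι → H) : Prop :=
  Dense (Submodule.span ℂ (Set.range f) : Set H) ∧
  ∃ A B : ℝ, 0 < A ∧ 0 < B ∧ ∀ (s : Finset ι) (c : ι → ℂ),
    A * ∑ i ∈ s, ‖c i‖ ^ 2 ≤ ‖∑ i ∈ s, c i • f i‖ ^ 2 ∧
    ‖∑ i ∈ s, c i • f i‖ ^ 2 ≤ B * ∑ i ∈ s, ‖c i‖ ^ 2

/-- The sequence `F` (indexed by `ℕ` or by `ℤ`) is the orbit of a bounded operator: there is a
bounded linear operator `T` from the linear span of `F` to the space with `T (F k) = F (k + 1)` for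
all indices `k`. -/
def IsBoundedOrbit {H : Type*} [NormedAddCommGroup H] [InnerProductSpace ℂ H]
    {I : Type*} [Add I] [One I] (F : I → H) : Prop :=
  ∃ T : Submodule.span ℂ (Set.range F) →L[ℂ] H,
    ∀ k, T ⟨F k, Submodule.subset_span ⟨k, rfl⟩⟩ = F (k + 1)

/-- Some ordering of the family by the index set `I` has a bounded representation. -/
def AdmitsBounded {H : Type*} [NormedAddCommGroup H] [InnerProductSpace ℂ H]
    (I : Type) [Add I] [One I] (f : ℤ × ℤ → H) : Prop :=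
  ∃ σ : I ≃ ℤ × ℤ, IsBoundedOrbit (fun k => f (σ k))

theorem result (a b : ℝ) (ha : 0 < a) (hb : 0 < b) (g : L2) (f : ℤ × ℤ → L2)
    (hf : IsGaborSystem a b g f) (hframe : IsFrame f) :
    (¬ IsRieszBasis f → (AdmitsBounded ℕ f ∨ AdmitsBounded ℤ f) →
      (AdmitsBounded ℕ f ∧ AdmitsBounded ℤ f)) ∧
    (AdmitsBounded ℕ f ↔ IsRieszBasis f) ∧ (AdmitsBounded ℤ f ↔ IsRieszBasis f) := by
  obtain ⟨h1, h2, h3⟩ := Pool.Agent.V11113.gabor_iff a b ha hb g f hf hframe
  have e1 : Nonempty (ℕ ≃ ℤ × ℤ) := nonempty_equiv_of_countable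
  have e2 : Nonempty (ℤ ≃ ℤ × ℤ) := nonempty_equiv_of_countable
  refine ⟨fun hR h => ?_, ⟨fun h => h1 h, fun h => ?_⟩, ⟨fun h => h2 h, fun h => ?_⟩⟩
  · rcases h with h | h
    · exact absurd (h1 h) hR
    · exact absurd (h2 h) hR
  · exact ⟨e1.some, (h3 h).1 _⟩
  · exact ⟨e2.some, (h3 h).2 _⟩

end Pool.Agent.Results.MP_fbf723_an.BothIndexings
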